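import Mathlib

open Set Filter

namespace Pool.Agent.Results.MP_26c4ab_lc.NoGlb

/-- `A` is finitely embeddable in `B` -/
def SetFE (A B : Set ℕ+) : Prop := ∀ F : Set ℕ+, F.Finite → F ⊆ A → ∃ k : ℕ+, ∀ x ∈ F, k * x ∈ B

/-- finite embeddability of ultrafilters -/
def FE (F G : Ultrafilter ℕ+) : Prop := ∀ B ∈ G, ∃ A ∈ F, SetFE A B

lemma two_pow_sum {a b c d : ℕ} (h : 2 ^ a + 2 ^ b = 2 ^ c + 2 ^ d) : a = c ∨ a = d := by
  by_contra hh
  push Not at hh
  obtain ⟨h1, h2⟩ := hh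
  have key : ∀ {a b c d : ℕ}, 2 ^ a + 2 ^ b = 2 ^ c + 2 ^ d → c < a → d < a → False := by
    intro a b c d h h1 h2
    have e1 : 2 * 2 ^ c ≤ 2 ^ a := by rw [← pow_succ']; exact Nat.pow_le_pow_right two_pos h1
    have e2 : 2 * 2 ^ d ≤ 2 ^ a := by rw [← pow_succ']; exact Nat.pow_le_pow_right two_pos h2
    have e3 : 0 < 2 ^ b := by positivity
    omega
  have inj : ∀ {a b : ℕ}, 2 ^ a = 2 ^ b → a = b := fun h => Nat.pow_right_injective le_rfl h
  rcases lt_or_gt_of_ne h1 with h1 | h1 <;> rcases lt_or_gt_of_ne h2 with h2 | h2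
  · rcases lt_trichotomy b c with h3 | h3 | h3
    · exact key h.symm h1 h3
    · subst h3
      have : a = d := inj (by omega)
      omega
    · exact key (a := b) (b := a) (c := c) (d := d) (by omega) h3 (by
        by_contra h4
        have e1 : 2 ^ a < 2 ^ c := Nat.pow_lt_pow_right one_lt_two h1
        have e2 : 2 ^ b ≤ 2 ^ d := Nat.pow_le_pow_right two_pos (by omega)
        omega)
  · rcases lt_trichotomy b c with h3 | h3 | h3
    · exact key h.symm h1 h3
    · subst h3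
      have : a = d := inj (by omega)
      omega
    · exact key (a := b) (b := a) (c := c) (d := d) (by omega) h3 (by omega)
  · rcases lt_trichotomy b d with h3 | h3 | h3
    · exact key (a := d) (b := c) (c := a) (d := b) (by omega) h2 h3
    · subst h3
      have : a = c := inj (by omega)
      omega
    · exact key (a := b) (b := a) (c := c) (d := d) (by omega) (by omega) h3
  · exact key h h1 h2

def pw (e : ℕ) : ℕ+ := 2 ^ e

lemma pw_add (a b : ℕ) : pw (a + b) = pw a * pw b := pow_add _ _ _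

lemma pw_inj {a b : ℕ} (h : pw a = pw b) : a = b := by
  have : ((pw a : ℕ+) : ℕ) = pw b := by rw [h]
  simp only [pw, PNat.pow_coe] at this
  exact Nat.pow_right_injective le_rfl this

def T : Set ℕ+ := {x | ∃ j, x = pw (2 ^ j)}

lemma uniq {k l a b : ℕ+} (hab : a ≠ b) (h1 : k * a ∈ T) (h2 : k * b ∈ T) (h3 : l * a ∈ T)
    (h4 : l * b ∈ T) : k = l := by
  obtain ⟨i, hi⟩ := h1
  obtain ⟨i', hi'⟩ := h2
  obtain ⟨j, hj⟩ := h3
  obtain ⟨j', hj'⟩ := h4
  have : pw (2 ^ i + 2 ^ j') = pw (2 ^ i' + 2 ^ j) := by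
    rw [pw_add, pw_add, ← hi, ← hi', ← hj, ← hj']
    simp only [mul_comm, mul_left_comm]
  rcases two_pow_sum (pw_inj this) with h | h
  · subst h
    exact (hab (mul_left_cancel (hi.trans hi'.symm))).elim
  · subst h
    exact mul_right_cancel (hi.trans hj.symm)

noncomputable def chain (n : ℕ) : Ultrafilter ℕ+ := (hyperfilter ℕ).map fun j => pw (2 ^ j - n)

lemma ev (n : ℕ) : ∀ᶠ j in (hyperfilter ℕ : Filter ℕ), n ≤ 2 ^ j := by
  refine Nat.hyperfilter_le_atTop ?_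
  filter_upwards [eventually_ge_atTop n] with j hj
  exact hj.trans Nat.lt_two_pow_self.le

lemma two_mem {G : Ultrafilter ℕ+} (hG : ∀ m, {x | pw m ∣ x} ∈ G) {A : Set ℕ+} (hA : A ∈ G) :
    ∃ a ∈ A, ∃ b ∈ A, a ≠ b := by
  obtain ⟨a, ha⟩ := Ultrafilter.nonempty_of_mem hA
  obtain ⟨b, hb, hd⟩ := Ultrafilter.nonempty_of_mem (inter_mem hA (hG a))
  refine ⟨a, ha, b, hb, ?_⟩
  rintro rfl
  have h1 : ((pw a : ℕ+) : ℕ) ≤ a := PNat.le_of_dvd hd
  simp only [pw, PNat.pow_coe] at h1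
  exact absurd h1 (not_le.2 Nat.lt_two_pow_self)

theorem result : ∃ F : ℕ → Ultrafilter ℕ+, (∀ i j, i ≤ j → FE (F j) (F i)) ∧
    ¬ ∃ G, (∀ i, FE G (F i)) ∧ ∀ H, (∀ i, FE H (F i)) → FE H G := by
  refine ⟨chain, fun i j hij B hB => ?_, ?_⟩
  · refine ⟨{x | pw (j - i) * x ∈ B}, ?_, fun F _ hF => ⟨_, hF⟩⟩
    have hB' : {t | pw (2 ^ t - i) ∈ B} ∈ hyperfilter ℕ := hB
    show {t | pw (j - i) * pw (2 ^ t - j) ∈ B} ∈ (hyperfilter ℕ : Filter ℕ)
    filter_upwards [hB', ev j] with t h1 h2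
    rw [← pw_add]
    have : j - i + (2 ^ t - j) = 2 ^ t - i := by omega
    rwa [this]
  · rintro ⟨G, hG, hmax⟩
    have hdiv : ∀ m, {x | pw m ∣ x} ∈ G := by
      intro m
      have h1 : FE (pure (pw m)) G := hmax _ fun i B hB => by
        refine ⟨{pw m}, by simp, fun F _ hF => ?_⟩
        have hB' : {t | pw (2 ^ t - i) ∈ B} ∈ (hyperfilter ℕ : Filter ℕ) := hB
        obtain ⟨t, h1, h2⟩ := Filter.nonempty_of_mem (inter_mem hB' (ev (i + m)))
        refine ⟨pw (2 ^ t - i - m), fun x hx => ?_⟩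
        rw [show x = pw m from hF hx, ← pw_add]
        have h3 : i + m ≤ 2 ^ t := h2
        have : 2 ^ t - i - m + m = 2 ^ t - i := by omega
        rwa [this]
      by_contra hc
      obtain ⟨A, hA, hAB⟩ := h1 _ (Ultrafilter.compl_mem_iff_notMem.2 hc)
      obtain ⟨k, hk⟩ := hAB {pw m} (finite_singleton _) (singleton_subset_iff.2 hA)
      exact hk _ rfl (dvd_mul_left _ _)
    have hB : ∀ n, {x | pw n * x ∈ T} ∈ chain n := fun n => by
      show {t | pw n * pw (2 ^ t - n) ∈ T} ∈ (hyperfilter ℕ : Filter ℕ)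
      filter_upwards [ev n] with t h
      refine ⟨t, ?_⟩
      rw [← pw_add, Nat.add_sub_cancel' h]
    obtain ⟨A, hA, hA0⟩ := hG 0 _ (hB 0)
    obtain ⟨a, ha, b, hb, hab⟩ := two_mem hdiv hA
    obtain ⟨k, hk⟩ := hA0 {a, b} (toFinite _) (insert_subset ha (singleton_subset_iff.2 hb))
    obtain ⟨A', hA', hA1⟩ := hG k _ (hB k)
    obtain ⟨c, hc, d, hd, hcd⟩ := two_mem hdiv (inter_mem hA hA')
    obtain ⟨k', hk'⟩ := hA0 {a, b, c, d} (toFinite _) (insert_subset ha (insert_subset hb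
      (insert_subset hc.1 (singleton_subset_iff.2 hd.1))))
    obtain ⟨l, hl⟩ := hA1 {c, d} (toFinite _) (insert_subset hc.2 (singleton_subset_iff.2 hd.2))
    simp only [mem_ofPred_eq, pw, pow_zero, one_mul] at hk hk'
    have e1 : k = k' := uniq hab (hk a (by simp)) (hk b (by simp)) (hk' a (by simp))
      (hk' b (by simp))
    have e2 : k' = pw k * l := uniq hcd (hk' c (by simp)) (hk' d (by simp))
      (by rw [mul_assoc]; exact hl c (by simp)) (by rw [mul_assoc]; exact hl d (by simp))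
    have h1 : ((pw k : ℕ+) : ℕ) ≤ k := PNat.le_of_dvd ⟨l, e1.trans e2⟩
    simp only [pw, PNat.pow_coe] at h1
    exact absurd h1 (not_le.2 Nat.lt_two_pow_self)

end Pool.Agent.Results.MP_26c4ab_lc.NoGlb
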